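import Pool.Agent.H295R2.P
import Pool.Agent.Q120.NB.Stm

set_option autoImplicit false

open MeasureTheory Filter Topology Set
open Pool.Agent.H295R2 Pool.Agent.Q120.NB

namespace Pool.Agent.Q31.NB

noncomputable section

/-- `max(0, 1 - e^(-v))` -/
def ker (v : ℝ) : ℂ := ((max 0 (1 - Real.exp (-v)) : ℝ) : ℂ)

lemma ker_cont : Continuous ker := by unfold ker; fun_prop

lemma ker_nonpos {u : ℝ} (hu : u ≤ 0) : ker u = 0 := by
  unfold ker
  have h1 : max 0 (1 - Real.exp (-u)) = 0 := by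
    refine max_eq_left ?_
    have := Real.add_one_le_exp (-u)
    linarith
  rw [h1]
  simp

lemma ker_pos {u : ℝ} (hu : 0 ≤ u) : ker u = 1 - Complex.exp (-u) := by
  unfold ker
  have h2 : max 0 (1 - Real.exp (-u)) = 1 - Real.exp (-u) := by
    refine max_eq_right ?_
    have : Real.exp (-u) ≤ 1 := Real.exp_le_one_iff.mpr (by linarith)
    linarith
  rw [h2]
  push_cast
  rfl

lemma ker_nice : Nice ker 1 0 0 where
  meas := ker_cont.measurable
  bound u := by
    unfold ker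
    rw [Complex.norm_real, Real.norm_eq_abs, abs_of_nonneg (le_max_left _ _)]
    simp only [zero_mul, Real.exp_zero, mul_one]
    refine max_le zero_le_one ?_
    have := Real.exp_pos (-u)
    linarith
  zero u hu := ker_nonpos hu.le

lemma Lap_ker {z : ℂ} (hz : 0 < z.re) : Lap ker z = 1 / (z * (z + 1)) := by
  have hz0 : z ≠ 0 := by rintro rfl; simp at hz
  have hz1 : z + 1 ≠ 0 := by
    intro h
    have := congrArg Complex.re h
    simp at this
    linarith
  unfold Lap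
  have h1 : (fun u : ℝ => ker u * Complex.exp (-(z * u))) =
      (Ioi (0:ℝ)).indicator (fun u : ℝ => Complex.exp (-z * u) - Complex.exp (-(z + 1) * u)) := by
    ext u
    by_cases hu : u ∈ Ioi (0:ℝ)
    · rw [indicator_of_mem hu]
      rw [mem_Ioi] at hu
      rw [ker_pos hu.le, sub_mul, one_mul, ← Complex.exp_add]
      have e1 : -(z * u) = -z * u := by ring
      have e2 : -(u:ℂ) + -z * u = -(z + 1) * u := by ring
      rw [e1, e2]
    · rw [indicator_of_notMem hu]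
      rw [mem_Ioi, not_lt] at hu
      rw [ker_nonpos hu, zero_mul]
  have r1 : (-z).re < 0 := by simpa using hz
  have r2 : (-(z + 1)).re < 0 := by
    simp
    linarith
  rw [h1, integral_indicator measurableSet_Ioi,
    integral_sub (integrableOn_exp_mul_complex_Ioi r1 0) (integrableOn_exp_mul_complex_Ioi r2 0),
    integral_exp_mul_complex_Ioi r1, integral_exp_mul_complex_Ioi r2]
  simp only [Complex.ofReal_zero, mul_zero, Complex.exp_zero]
  have hz1' : -(z + 1) ≠ 0 := neg_ne_zero.mpr hz1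
  field_simp
  ring

lemma K_bound {δ : ℝ} (hδ : 0 < δ) (hδ1 : δ ≤ 1) {z : ℂ} (h0 : δ ≤ ‖z‖) (h1 : δ ≤ ‖z + 1‖) :
    ‖1 / (z * (z + 1))‖ ≤ (4 / δ ^ 2) * (1 + |z.im|) ^ (-2 : ℝ) := by
  have hpow : (1 + |z.im|) ^ (-2 : ℝ) = 1 / (1 + |z.im|) ^ 2 := by
    rw [Real.rpow_neg (by positivity)]
    norm_num
  have e1 : |z.im| ≤ ‖z‖ := Complex.abs_im_le_norm z
  have e2 : |z.im| ≤ ‖z + 1‖ := by
    have := Complex.abs_im_le_norm (z + 1)
    simpa using this
  have key : ∀ r : ℝ, δ ≤ r → |z.im| ≤ r → 1 + |z.im| ≤ (2 / δ) * r := by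
    intro r hr1 hr2
    have h2 : 1 ≤ (1 / δ) * r := by
      rw [one_div, inv_mul_eq_div, le_div_iff₀ hδ]
      linarith
    have h3 : r ≤ (1 / δ) * r := by
      have : 1 ≤ 1 / δ := by rw [le_div_iff₀ hδ]; linarith
      nlinarith
    have h4 : (2 / δ) * r = (1 / δ) * r + (1 / δ) * r := by ring
    linarith
  have k1 := key _ h0 e1
  have k2 := key _ h1 e2
  have p1 : 0 < ‖z‖ := by linarith
  have p2 : 0 < ‖z + 1‖ := by linarith
  rw [hpow, norm_div, norm_mul, norm_one, mul_one_div, div_le_div_iff₀ (by positivity) (by positivity)]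
  have h5 : (1 + |z.im|) ^ 2 ≤ ((2 / δ) * ‖z‖) * ((2 / δ) * ‖z + 1‖) := by
    rw [sq]
    gcongr
  calc 1 * (1 + |z.im|) ^ 2 ≤ ((2 / δ) * ‖z‖) * ((2 / δ) * ‖z + 1‖) := by rw [one_mul]; exact h5
    _ = 4 / δ ^ 2 * (‖z‖ * ‖z + 1‖) := by ring

lemma pow_two_le (y : ℝ) : (1 + |y|) ^ (-2 : ℝ) ≤ (1 + |y|) ^ (-(3 / 2) : ℝ) :=
  Real.rpow_le_rpow_of_exponent_le (by linarith [abs_nonneg y]) (by norm_num)

/-- the shift of the line of integration over the removable singularity at `0` -/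
lemma shift {g : ℂ → ℂ} {c A : ℝ} (hc : 0 < c) (hc1 : c < 1)
    (hd : ∀ z : ℂ, -c ≤ z.re → z.re ≤ 1 → DifferentiableAt ℂ g z)
    (hb : ∀ z : ℂ, -c ≤ z.re → z.re ≤ 1 → ‖g z‖ ≤ A * (1 + |z.im|) ^ (1 / 2 : ℝ)) :
    ∫ y : ℝ, (g (((-c : ℝ) : ℂ) + y * Complex.I) - g 0) *
        (1 / ((((-c : ℝ) : ℂ) + y * Complex.I) * ((((-c : ℝ) : ℂ) + y * Complex.I) + 1))) =
      ∫ y : ℝ, (g (((1 : ℝ) : ℂ) + y * Complex.I) - g 0) *
        (1 / ((((1 : ℝ) : ℂ) + y * Complex.I) * ((((1 : ℝ) : ℂ) + y * Complex.I) + 1))) := by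
  set H : ℂ → ℂ := fun z => dslope g 0 z / (z + 1) with hH
  have hHne : ∀ z : ℂ, z ≠ 0 → H z = (g z - g 0) * (1 / (z * (z + 1))) := by
    intro z hz
    rw [hH]
    simp only
    rw [dslope_of_ne _ hz, slope_def_field, sub_zero, div_div]
    ring
  have hHd : ∀ z : ℂ, -c ≤ z.re → z.re ≤ 1 → DifferentiableAt ℂ H z := by
    intro z h1 h2
    have hne : z + 1 ≠ 0 := by
      intro h
      have := congrArg Complex.re h
      simp at this
      linarith
    have h3 : DifferentiableAt ℂ (dslope g 0) z := by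
      by_cases hz : z = 0
      · have hS : {z : ℂ | -c < z.re ∧ z.re < 1} ∈ 𝓝 (0:ℂ) := by
          refine IsOpen.mem_nhds ?_ ?_
          · exact (isOpen_lt continuous_const Complex.continuous_re).inter
              (isOpen_lt Complex.continuous_re continuous_const)
          · simp [hc]
        have h4 : DifferentiableOn ℂ (dslope g 0) {z : ℂ | -c < z.re ∧ z.re < 1} := by
          rw [Complex.differentiableOn_dslope hS]
          intro w hw
          exact (hd w hw.1.le hw.2.le).differentiableWithinAt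
        rw [hz]
        exact h4.differentiableAt hS
      · rw [differentiableAt_dslope_of_ne hz]
        exact hd z h1 h2
    exact h3.div (by fun_prop) hne
  -- the bound
  have hA : 0 ≤ A := by
    have h1 := (norm_nonneg _).trans (hb 0 (by simp; linarith) (by simp))
    simpa using h1
  set Q : Set ℂ := Complex.reProdIm (Icc (-c) 1) (Icc (-1) 1) with hQ
  have hQc : IsCompact Q := isCompact_Icc.reProdIm isCompact_Icc
  have hcont : ContinuousOn H Q := by
    intro s hs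
    rw [hQ, Complex.mem_reProdIm] at hs
    exact (hHd s hs.1.1 hs.1.2).continuousAt.continuousWithinAt
  obtain ⟨M, hM⟩ := hQc.exists_bound_of_continuousOn hcont
  have hM0 : 0 ≤ M := by
    have h1 := hM 0 (by rw [hQ, Complex.mem_reProdIm]; simp; linarith)
    exact (norm_nonneg _).trans h1
  have hbound : ∀ z : ℂ, -c ≤ z.re → z.re ≤ 1 →
      ‖H z‖ ≤ (8 * A + 4 * M) * (1 + |z.im|) ^ (-(3 / 2) : ℝ) := by
    intro z h1 h2
    have hy : 0 < (1 + |z.im|) ^ (-(3 / 2) : ℝ) := by positivity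
    rcases le_or_gt 1 |z.im| with h | h
    · have hz0 : z ≠ 0 := by
        rintro rfl
        simp at h
        linarith
      have e1 : 1 ≤ ‖z‖ := h.trans (Complex.abs_im_le_norm z)
      have e2 : 1 ≤ ‖z + 1‖ := by
        have := Complex.abs_im_le_norm (z + 1)
        simp only [Complex.add_im, Complex.one_im, add_zero] at this
        linarith
      have e3 := K_bound one_pos le_rfl e1 e2
      have e4 : ‖g z - g 0‖ ≤ 2 * A * (1 + |z.im|) ^ (1 / 2 : ℝ) := by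
        have e5 := hb z h1 h2
        have e6 := hb 0 (by simp; linarith) (by simp)
        simp only [Complex.zero_im, abs_zero, add_zero, Real.one_rpow, mul_one] at e6
        have e7 : (1:ℝ) ≤ (1 + |z.im|) ^ (1 / 2 : ℝ) :=
          Real.one_le_rpow (by linarith [abs_nonneg z.im]) (by norm_num)
        have e8 := norm_sub_le (g z) (g 0)
        have e9 : A ≤ A * (1 + |z.im|) ^ (1 / 2 : ℝ) := le_mul_of_one_le_right hA e7
        linarith
      rw [hHne z hz0, norm_mul]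
      have e10 : (1 + |z.im|) ^ (1 / 2 : ℝ) * (1 + |z.im|) ^ (-2 : ℝ) = (1 + |z.im|) ^ (-(3 / 2) : ℝ) := by
        rw [← Real.rpow_add (by positivity)]
        norm_num
      calc ‖g z - g 0‖ * ‖1 / (z * (z + 1))‖
          ≤ (2 * A * (1 + |z.im|) ^ (1 / 2 : ℝ)) * ((4 / 1 ^ 2) * (1 + |z.im|) ^ (-2 : ℝ)) := by gcongr
        _ = 8 * A * ((1 + |z.im|) ^ (1 / 2 : ℝ) * (1 + |z.im|) ^ (-2 : ℝ)) := by ring
        _ = 8 * A * (1 + |z.im|) ^ (-(3 / 2) : ℝ) := by rw [e10]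
        _ ≤ _ := by
          gcongr
          linarith
    · have hzQ : z ∈ Q := by
        rw [hQ, Complex.mem_reProdIm]
        exact ⟨⟨h1, h2⟩, abs_le.mp h.le⟩
      have e1 := hM z hzQ
      have e2 : (1 / 4 : ℝ) ≤ (1 + |z.im|) ^ (-(3 / 2) : ℝ) := by
        have e3 := pow_two_le z.im
        have e4 : (1 + |z.im|) ^ (-2 : ℝ) = 1 / (1 + |z.im|) ^ 2 := by
          rw [Real.rpow_neg (by positivity)]
          norm_num
        rw [e4] at e3
        refine le_trans ?_ e3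
        rw [div_le_div_iff₀ (by norm_num) (by positivity)]
        nlinarith [abs_nonneg z.im]
      nlinarith
  have hsh := contour_shift (H := H) (a := -c) (b := 1) (by linarith) hHd hbound
  have l1 : ∀ y : ℝ, (((-c : ℝ) : ℂ) + y * Complex.I) ≠ 0 := by
    intro y h
    have := congrArg Complex.re h
    simp at this
    linarith
  have l2 : ∀ y : ℝ, (((1 : ℝ) : ℂ) + y * Complex.I) ≠ 0 := by
    intro y h
    have := congrArg Complex.re h
    simp at this
  simp_rw [hHne _ (l1 _), hHne _ (l2 _)] at hsh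
  exact hsh

/-- the integral of `1/(z(z+1))` on a line between the two poles -/
lemma K_left {c : ℝ} (hc : 0 < c) (hc1 : c ≤ 1 / 2) :
    Integrable (fun y : ℝ => 1 / ((((-c : ℝ) : ℂ) + y * Complex.I) * ((((-c : ℝ) : ℂ) + y * Complex.I) + 1))) ∧
    ∫ y : ℝ, 1 / ((((-c : ℝ) : ℂ) + y * Complex.I) * ((((-c : ℝ) : ℂ) + y * Complex.I) + 1)) =
      -(2 * Real.pi) := by
  set K : ℂ → ℂ := fun z => 1 / (z * (z + 1)) with hK
  have hne : ∀ z : ℂ, -(1 / 2) ≤ z.re → z.re ≤ -c → z ≠ 0 ∧ z + 1 ≠ 0 := by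
    intro z h1 h2
    constructor
    · rintro rfl
      simp at h2
      linarith
    · intro h
      have := congrArg Complex.re h
      simp at this
      linarith
  have hd : ∀ z : ℂ, -(1 / 2) ≤ z.re → z.re ≤ -c → DifferentiableAt ℂ K z := by
    intro z h1 h2
    obtain ⟨n1, n2⟩ := hne z h1 h2
    exact DifferentiableAt.div (by fun_prop) (by fun_prop) (mul_ne_zero n1 n2)
  have hb : ∀ z : ℂ, -(1 / 2) ≤ z.re → z.re ≤ -c → ‖K z‖ ≤ (4 / c ^ 2) * (1 + |z.im|) ^ (-(3 / 2) : ℝ) := by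
    intro z h1 h2
    have e1 : c ≤ ‖z‖ := by
      have := Complex.abs_re_le_norm z
      have h3 := neg_le_abs z.re
      linarith
    have e2 : c ≤ ‖z + 1‖ := by
      have := Complex.abs_re_le_norm (z + 1)
      have h3 := le_abs_self (z + 1).re
      simp only [Complex.add_re, Complex.one_re] at this h3
      linarith
    have e3 := K_bound hc (by linarith) e1 e2
    refine e3.trans ?_
    have := pow_two_le z.im
    gcongr
  have hint := vertical_integrable (H := K) (a := -c) (B := 4 / c ^ 2)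
    (fun s hs => (hd s (by rw [hs]; linarith) hs.le).continuousAt)
    (fun s hs => hb s (by rw [hs]; linarith) hs.le)
  refine ⟨hint, ?_⟩
  have hsh := contour_shift (H := K) (a := -(1 / 2)) (b := -c) (by linarith) hd hb
  have h1 : ∫ y : ℝ, K (((-c : ℝ) : ℂ) + y * Complex.I) = -(2 * Real.pi) := by
    rw [← hsh]
    have e1 : ∀ y : ℝ, K (((-(1 / 2) : ℝ) : ℂ) + y * Complex.I) =
        (((-4) * (1 + (2 * y) ^ 2)⁻¹ : ℝ) : ℂ) := by
      intro y
      rw [hK]
      simp only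
      have e2 : (((-(1 / 2) : ℝ) : ℂ) + y * Complex.I) * ((((-(1 / 2) : ℝ) : ℂ) + y * Complex.I) + 1) =
          (((-(1 / 4)) * (1 + (2 * y) ^ 2) : ℝ) : ℂ) := by
        push_cast
        have hI : Complex.I ^ 2 = -1 := Complex.I_sq
        linear_combination (y:ℂ) ^ 2 * hI
      rw [e2, ← Complex.ofReal_one, ← Complex.ofReal_div]
      congr 1
      have h3 : (1 + (2 * y) ^ 2) ≠ 0 := by positivity
      field_simp
    simp_rw [e1]
    rw [integral_complex_ofReal, integral_const_mul,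
      Measure.integral_comp_mul_left (fun y : ℝ => (1 + y ^ 2)⁻¹) 2, integral_univ_inv_one_add_sq,
      abs_of_pos (by norm_num : (0:ℝ) < 2⁻¹), smul_eq_mul]
    push_cast
    ring
  exact h1

/-- `1/(z(z+1))` -/
def Kf (z : ℂ) : ℂ := 1 / (z * (z + 1))

lemma Kf_cont {z : ℂ} (h0 : z ≠ 0) (h1 : z + 1 ≠ 0) : ContinuousAt Kf z := by
  have : DifferentiableAt ℂ (fun z : ℂ => 1 / (z * (z + 1))) z :=
    DifferentiableAt.div (by fun_prop) (by fun_prop) (mul_ne_zero h0 h1)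
  exact this.continuousAt

lemma Kf_one {z : ℂ} (hz : z.re = 1) : z ≠ 0 ∧ z + 1 ≠ 0 ∧ ‖Kf z‖ ≤ 4 * (1 + |z.im|) ^ (-2 : ℝ) := by
  have e1 : 1 ≤ ‖z‖ := by
    have := Complex.abs_re_le_norm z
    have h3 := le_abs_self z.re
    linarith
  have e2 : 1 ≤ ‖z + 1‖ := by
    have := Complex.abs_re_le_norm (z + 1)
    have h3 := le_abs_self (z + 1).re
    simp only [Complex.add_re, Complex.one_re] at this h3
    linarith
  refine ⟨?_, ?_, ?_⟩
  · rintro rfl
    simp at hz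
  · intro h
    rw [h, norm_zero] at e2
    linarith
  · have := K_bound one_pos le_rfl e1 e2
    simpa [Kf] using this

lemma Kf_int_one : Integrable (fun y : ℝ => Kf (((1:ℝ) : ℂ) + y * Complex.I)) := by
  refine vertical_integrable (B := 4) (fun s hs => ?_) (fun s hs => ?_)
  · obtain ⟨h1, h2, -⟩ := Kf_one hs
    exact Kf_cont h1 h2
  · obtain ⟨-, -, h3⟩ := Kf_one hs
    refine h3.trans ?_
    have := pow_two_le s.im
    gcongr

lemma re_line (ξ : ℝ) : (((1:ℝ) : ℂ) + 2 * Real.pi * ξ * Complex.I).re = 1 := by simp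

lemma Lap_line (ξ : ℝ) : Lap ker (((1:ℝ) : ℂ) + 2 * Real.pi * ξ * Complex.I) =
    Kf (((1:ℝ) : ℂ) + 2 * Real.pi * ξ * Complex.I) :=
  Lap_ker (by rw [re_line]; norm_num)

lemma Lap_int : Integrable (fun ξ : ℝ => Lap ker (((1:ℝ) : ℂ) + 2 * Real.pi * ξ * Complex.I)) := by
  simp_rw [Lap_line]
  exact scale_integrable Kf_int_one

lemma Kf_zero : ∫ y : ℝ, Kf (((1:ℝ) : ℂ) + y * Complex.I) = 0 := by
  have h1 := inversion ker_nice (by norm_num : (0:ℝ) < 1) ker_cont Lap_int 0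
  rw [ker_nonpos le_rfl] at h1
  simp only [Complex.ofReal_zero, mul_zero, Complex.exp_zero, mul_one] at h1
  simp_rw [Lap_line] at h1
  rw [scale_integral] at h1
  have h2 : (((2 * Real.pi)⁻¹ : ℝ) : ℂ) ≠ 0 := by
    exact_mod_cast (by positivity : (2 * Real.pi : ℝ)⁻¹ ≠ 0)
  exact (mul_eq_zero.mp h1.symm).resolve_left h2

/-- the Dirichlet series on the line `Re z = 1` -/
lemma series_line {s : ℂ} (hs : 0 < s.re) (x : ℝ) :
    HasSum (fun m : ℕ => ((ArithmeticFunction.moebius m : ℤ) : ℂ) * (m : ℂ) ^ (-s) * ker (x - Real.log m))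
      (∫ ξ : ℝ, Kf (((1:ℝ) : ℂ) + 2 * Real.pi * ξ * Complex.I) *
        (Complex.exp ((((1:ℝ) : ℂ) + 2 * Real.pi * ξ * Complex.I) * x) *
        fz (s + (((1:ℝ) : ℂ) + 2 * Real.pi * ξ * Complex.I)))) := by
  have hre : ∀ ξ : ℝ, (s + (((1:ℝ) : ℂ) + 2 * Real.pi * ξ * Complex.I)).re = s.re + 1 := by
    intro ξ
    rw [Complex.add_re, re_line]
  have hLint := Lap_int
  set F : ℕ → ℝ → ℂ := fun m ξ => Lap ker ((1:ℝ) + 2 * Real.pi * ξ * Complex.I) *
      Complex.exp (((1:ℝ) + 2 * Real.pi * ξ * Complex.I) * x) *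
      LSeries.term (fun n => ((ArithmeticFunction.moebius n : ℤ) : ℂ))
        (s + ((1:ℝ) + 2 * Real.pi * ξ * Complex.I)) m with hF
  have hFeq : ∀ m : ℕ, ∀ ξ : ℝ, F m ξ = (((ArithmeticFunction.moebius m : ℤ) : ℂ) * (m : ℂ) ^ (-s)) *
      (Lap ker ((1:ℝ) + 2 * Real.pi * ξ * Complex.I) *
      Complex.exp (((1:ℝ) + 2 * Real.pi * ξ * Complex.I) * ((x - Real.log m : ℝ) : ℂ))) := by
    intro m ξ
    rcases Nat.eq_zero_or_pos m with rfl | hm
    · simp [hF, LSeries.term]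
    · have hm0 : (m : ℂ) ≠ 0 := by exact_mod_cast hm.ne'
      rw [hF]
      simp only
      rw [LSeries.term_of_ne_zero hm.ne']
      have e1 : Complex.exp (((1:ℝ) + 2 * Real.pi * ξ * Complex.I) * x) /
            (m : ℂ) ^ (s + (((1:ℝ) : ℂ) + 2 * Real.pi * ξ * Complex.I)) =
          (m : ℂ) ^ (-s) *
            Complex.exp (((1:ℝ) + 2 * Real.pi * ξ * Complex.I) * ((x - Real.log m : ℝ) : ℂ)) := by
        rw [Complex.cpow_def_of_ne_zero hm0, Complex.cpow_def_of_ne_zero hm0, ← Complex.exp_sub,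
          ← Complex.exp_add]
        congr 1
        rw [Complex.ofReal_sub, Complex.natCast_log]
        ring
      linear_combination (Lap ker ((1:ℝ) + 2 * Real.pi * ξ * Complex.I) *
        ((ArithmeticFunction.moebius m : ℤ) : ℂ)) * e1
  have hFnorm : ∀ m : ℕ, ∀ ξ : ℝ, ‖F m ξ‖ ≤ (Real.exp x * (1 / (m:ℝ) ^ (s.re + 1))) *
      ‖Lap ker ((1:ℝ) + 2 * Real.pi * ξ * Complex.I)‖ := by
    intro m ξ
    rw [hF]
    simp only
    rw [norm_mul, norm_mul]
    have e1 : ‖Complex.exp (((1:ℝ) + 2 * Real.pi * ξ * Complex.I) * x)‖ = Real.exp x := by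
      rw [Complex.norm_exp]; congr 1; simp
    have e2 : ‖LSeries.term (fun n => ((ArithmeticFunction.moebius n : ℤ) : ℂ))
        (s + (((1:ℝ) : ℂ) + 2 * Real.pi * ξ * Complex.I)) m‖ ≤ 1 / (m:ℝ) ^ (s.re + 1) := by
      rw [LSeries.norm_term_eq, hre]
      split_ifs with hm
      · positivity
      · have h1 : ‖((ArithmeticFunction.moebius m : ℤ) : ℂ)‖ ≤ 1 := by
          rw [Complex.norm_intCast]
          have := ArithmeticFunction.abs_moebius_le_one (n := m)
          exact_mod_cast this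
        gcongr
    rw [e1]
    have h3 : 0 ≤ ‖Lap ker ((1:ℝ) + 2 * Real.pi * ξ * Complex.I)‖ := norm_nonneg _
    have h4 : 0 < Real.exp x := Real.exp_pos _
    calc _ ≤ ‖Lap ker ((1:ℝ) + 2 * Real.pi * ξ * Complex.I)‖ * Real.exp x *
          (1 / (m:ℝ) ^ (s.re + 1)) := by gcongr
      _ = _ := by ring
  have hFint : ∀ m : ℕ, Integrable (F m) := by
    intro m
    refine (hLint.norm.const_mul (Real.exp x * (1 / (m:ℝ) ^ (s.re + 1)))).mono' ?_
      (Eventually.of_forall fun ξ => hFnorm m ξ)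
    have : F m = fun ξ : ℝ => (((ArithmeticFunction.moebius m : ℤ) : ℂ) * (m : ℂ) ^ (-s)) *
      (Lap ker ((1:ℝ) + 2 * Real.pi * ξ * Complex.I) *
      Complex.exp (((1:ℝ) + 2 * Real.pi * ξ * Complex.I) * ((x - Real.log m : ℝ) : ℂ))) := by
      ext ξ; exact hFeq m ξ
    rw [this]
    refine AEStronglyMeasurable.const_mul ?_ _
    refine hLint.aestronglyMeasurable.mul (Continuous.aestronglyMeasurable ?_)
    fun_prop
  have hFsum : Summable (fun m : ℕ => ∫ ξ, ‖F m ξ‖) := by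
    refine Summable.of_nonneg_of_le (fun m => integral_nonneg fun ξ => norm_nonneg _)
      (f := fun m : ℕ => (Real.exp x * ∫ ξ : ℝ, ‖Lap ker ((1:ℝ) + 2 * Real.pi * ξ * Complex.I)‖) *
        (1 / (m:ℝ) ^ (s.re + 1))) ?_ ?_
    · intro m
      calc ∫ ξ, ‖F m ξ‖ ≤ ∫ ξ : ℝ, (Real.exp x * (1 / (m:ℝ) ^ (s.re + 1))) *
            ‖Lap ker ((1:ℝ) + 2 * Real.pi * ξ * Complex.I)‖ :=
            integral_mono (hFint m).norm (hLint.norm.const_mul _) (hFnorm m)
        _ = _ := by rw [integral_const_mul]; ring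
    · exact (Real.summable_one_div_nat_rpow.mpr (by linarith)).mul_left _
  have key := hasSum_integral_of_summable_integral_norm hFint hFsum
  have e1 : ∀ m : ℕ, ∫ ξ, F m ξ =
      ((ArithmeticFunction.moebius m : ℤ) : ℂ) * (m : ℂ) ^ (-s) * ker (x - Real.log m) := by
    intro m
    simp_rw [hFeq]
    rw [integral_const_mul]
    congr 1
    exact (inversion ker_nice (by norm_num : (0:ℝ) < 1) ker_cont hLint (x - Real.log m)).symm
  have e2 : ∫ ξ, ∑' m, F m ξ = ∫ ξ : ℝ, Kf (((1:ℝ) : ℂ) + 2 * Real.pi * ξ * Complex.I) *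
        (Complex.exp ((((1:ℝ) : ℂ) + 2 * Real.pi * ξ * Complex.I) * x) *
        fz (s + (((1:ℝ) : ℂ) + 2 * Real.pi * ξ * Complex.I))) := by
    refine integral_congr_ae (Eventually.of_forall fun ξ => ?_)
    simp only [hF]
    rw [tsum_mul_left]
    have h1 := (moebius_lseries (s := s + (((1:ℝ) : ℂ) + 2 * Real.pi * ξ * Complex.I))
      (by rw [hre]; linarith)).LSeries_eq
    unfold LSeries at h1
    rw [h1, Lap_line, mul_assoc]
  simp_rw [e1] at key
  rw [e2] at key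
  exact key

/-- the Dirichlet polynomial as an integral -/
lemma poly_eq {s : ℂ} (hs : 0 < s.re) {N : ℕ} (hN : 1 ≤ N) :
    ∑ n ∈ Finset.Icc 1 N, ((ArithmeticFunction.moebius n : ℤ) : ℂ) * (1 - (n : ℂ) / (N : ℂ)) *
      (n : ℂ) ^ (-s) = (((2 * Real.pi)⁻¹ : ℝ) : ℂ) *
      ∫ y : ℝ, Kf (((1:ℝ) : ℂ) + y * Complex.I) *
        (Complex.exp ((((1:ℝ) : ℂ) + y * Complex.I) * (Real.log N : ℝ)) *
        fz (s + (((1:ℝ) : ℂ) + y * Complex.I))) := by
  have h1 := series_line hs (Real.log N)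
  have h2 := scale_integral (fun z => Kf z * (Complex.exp (z * (Real.log N : ℝ)) * fz (s + z))) 1
  rw [h2] at h1
  have hN0 : (0:ℝ) < N := by exact_mod_cast hN
  have h3 : HasSum (fun m : ℕ => ((ArithmeticFunction.moebius m : ℤ) : ℂ) * (m : ℂ) ^ (-s) *
      ker (Real.log N - Real.log m))
      (∑ n ∈ Finset.Icc 1 N, ((ArithmeticFunction.moebius n : ℤ) : ℂ) * (n : ℂ) ^ (-s) *
      ker (Real.log N - Real.log n)) := by
    refine hasSum_sum_of_ne_finset_zero ?_
    intro m hm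
    rw [Finset.mem_Icc, not_and_or, not_le, not_le] at hm
    rcases hm with hm | hm
    · have : m = 0 := by omega
      subst this
      simp
    · rw [ker_nonpos, mul_zero]
      have : (N:ℝ) ≤ m := by exact_mod_cast hm.le
      have := Real.log_le_log hN0 this
      linarith
  rw [h1.unique h3]
  refine Finset.sum_congr rfl fun n hn => ?_
  rw [Finset.mem_Icc] at hn
  have hn0 : (0:ℝ) < n := by exact_mod_cast hn.1
  have hnN : (n:ℝ) ≤ N := by exact_mod_cast hn.2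
  have h4 : 0 ≤ Real.log N - Real.log n := by
    have := Real.log_le_log hn0 hnN
    linarith
  rw [ker_pos h4]
  have h5 : Complex.exp (-((Real.log N - Real.log n : ℝ) : ℂ)) = (n:ℂ) / N := by
    rw [← Complex.ofReal_neg, ← Complex.ofReal_exp, neg_sub, Real.exp_sub, Real.exp_log hn0,
      Real.exp_log hN0]
    push_cast
    rfl
  rw [h5]
  ring

lemma rpow_sub_bound {e a b : ℝ} (he : 0 ≤ e) : (1 + |a + b|) ^ e ≤ (1 + |a|) ^ e * (1 + |b|) ^ e := by
  rw [← Real.mul_rpow (by positivity) (by positivity)]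
  refine Real.rpow_le_rpow (by positivity) ?_ he
  have h1 := abs_add_le a b
  have h2 := mul_nonneg (abs_nonneg a) (abs_nonneg b)
  nlinarith

theorem t_PER : J_PER := by
  intro θ hθ hz σ ε hσ hσ1 hε
  -- the exponent
  set e : ℝ := min (ε / 2) ((σ - θ) / 4) with he
  have he0 : 0 < e := lt_min (by linarith) (by linarith)
  have he1 : e ≤ ε / 2 := min_le_left _ _
  have he2 : e ≤ (σ - θ) / 4 := min_le_right _ _
  set c : ℝ := σ - θ - e with hc
  have hc0 : 0 < c := by rw [hc]; linarith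
  have hc1 : c ≤ 1 / 2 := by rw [hc]; linarith
  have hZ : ∀ s : ℂ, θ < s.re → Zs s ≠ 0 := by
    intro s hs
    by_cases h1 : s = 1
    · exact Zs_ne_zero_of_one_le (by rw [h1]; simp)
    · rw [← Zs_eq h1]
      exact mul_ne_zero (sub_ne_zero.mpr h1) (hz s hs)
  obtain ⟨Cf, hCf0, hCf⟩ := fz_bound (θ := θ) (σ := θ + e) (ε := e) (by linarith) hZ (by linarith) he0
  set I0 : ℝ := ∫ y : ℝ, (1 + |y|) ^ (-(3 / 2 : ℝ)) with hI0
  have hI0n : 0 ≤ I0 := integral_nonneg fun y => by positivity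
  refine ⟨(2 * Real.pi)⁻¹ * (Cf * (4 / c ^ 2) * I0) + 1, by positivity, ?_⟩
  intro N t hN
  have hN1 : (1:ℝ) ≤ N := by exact_mod_cast hN
  have hN0 : (0:ℝ) < N := by linarith
  set s : ℂ := (σ : ℂ) + t * Complex.I with hs
  have hsre : s.re = σ := by rw [hs]; simp
  have hsim : s.im = t := by rw [hs]; simp
  set D : ℝ := Cf * (1 + |t|) ^ e with hD
  have hD0 : 0 < D := by rw [hD]; positivity
  set g : ℂ → ℂ := fun z => Complex.exp (z * (Real.log N : ℝ)) * fz (s + z) with hg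
  have hgd : ∀ z : ℂ, -c ≤ z.re → z.re ≤ 1 → DifferentiableAt ℂ g z := by
    intro z h1 h2
    have h3 : DifferentiableAt ℂ fz (s + z) := by
      refine fz_differentiableAt (hZ _ ?_)
      rw [Complex.add_re, hsre]
      linarith
    have h4 : DifferentiableAt ℂ (fun z => fz (s + z)) z :=
      DifferentiableAt.comp z (g := fz) (f := fun z => s + z) h3 (by fun_prop)
    rw [hg]
    exact DifferentiableAt.mul (by fun_prop) h4
  have hgb : ∀ z : ℂ, -c ≤ z.re → z.re ≤ 1 →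
      ‖g z‖ ≤ (N:ℝ) ^ z.re * D * (1 + |z.im|) ^ (1 / 2 : ℝ) := by
    intro z h1 h2
    rw [hg]
    simp only
    rw [norm_mul]
    have e1 : ‖Complex.exp (z * (Real.log N : ℝ))‖ = (N:ℝ) ^ z.re := by
      rw [Complex.norm_exp, Real.rpow_def_of_pos hN0]
      congr 1
      simp only [Complex.mul_re, Complex.ofReal_re, Complex.ofReal_im, mul_zero, sub_zero]
      ring
    have e2 : ‖fz (s + z)‖ ≤ D * (1 + |z.im|) ^ (1 / 2 : ℝ) := by
      have e3 := hCf (s + z) (by rw [Complex.add_re, hsre]; linarith)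
        (by rw [Complex.add_re, hsre]; linarith)
      rw [Complex.add_im, hsim] at e3
      have e4 := rpow_sub_bound (a := t) (b := z.im) he0.le
      have e5 : (1 + |z.im|) ^ e ≤ (1 + |z.im|) ^ (1 / 2 : ℝ) :=
        Real.rpow_le_rpow_of_exponent_le (by linarith [abs_nonneg z.im]) (by linarith)
      calc ‖fz (s + z)‖ ≤ Cf * (1 + |t + z.im|) ^ e := e3
        _ ≤ Cf * ((1 + |t|) ^ e * (1 + |z.im|) ^ (1 / 2 : ℝ)) := by
          gcongr
          refine e4.trans ?_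
          gcongr
        _ = D * (1 + |z.im|) ^ (1 / 2 : ℝ) := by rw [hD]; ring
    rw [e1]
    calc (N:ℝ) ^ z.re * ‖fz (s + z)‖ ≤ (N:ℝ) ^ z.re * (D * (1 + |z.im|) ^ (1 / 2 : ℝ)) := by gcongr
      _ = _ := by ring
  have hgb' : ∀ z : ℂ, -c ≤ z.re → z.re ≤ 1 → ‖g z‖ ≤ (N * D) * (1 + |z.im|) ^ (1 / 2 : ℝ) := by
    intro z h1 h2
    refine (hgb z h1 h2).trans ?_
    have e1 : (N:ℝ) ^ z.re ≤ N := by
      calc (N:ℝ) ^ z.re ≤ (N:ℝ) ^ (1:ℝ) := Real.rpow_le_rpow_of_exponent_le hN1 h2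
        _ = N := Real.rpow_one _
    gcongr
  have hg0 : g 0 = fz s := by
    rw [hg]
    simp
  have hsh := shift hc0 (by linarith) hgd hgb'
  -- bounds on the two lines
  have hpow : ∀ y : ℝ, (1 + |y|) ^ (1 / 2 : ℝ) * (1 + |y|) ^ (-2 : ℝ) = (1 + |y|) ^ (-(3 / 2) : ℝ) := by
    intro y
    rw [← Real.rpow_add (by positivity)]
    norm_num
  have hleftK : ∀ z : ℂ, z.re = -c → ‖Kf z‖ ≤ (4 / c ^ 2) * (1 + |z.im|) ^ (-2 : ℝ) := by
    intro z hz
    have e1 : c ≤ ‖z‖ := by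
      have := Complex.abs_re_le_norm z
      have h3 := neg_le_abs z.re
      linarith
    have e2 : c ≤ ‖z + 1‖ := by
      have := Complex.abs_re_le_norm (z + 1)
      have h3 := le_abs_self (z + 1).re
      simp only [Complex.add_re, Complex.one_re] at this h3
      linarith
    exact K_bound hc0 (by linarith) e1 e2
  have hleft : ∀ z : ℂ, z.re = -c → ‖g z * Kf z‖ ≤
      ((N:ℝ) ^ (-c) * D * (4 / c ^ 2)) * (1 + |z.im|) ^ (-(3 / 2) : ℝ) := by
    intro z hz
    have e1 := hgb z hz.ge (by rw [hz]; linarith)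
    rw [hz] at e1
    have e2 := hleftK z hz
    rw [norm_mul]
    calc ‖g z‖ * ‖Kf z‖ ≤ ((N:ℝ) ^ (-c) * D * (1 + |z.im|) ^ (1 / 2 : ℝ)) *
          ((4 / c ^ 2) * (1 + |z.im|) ^ (-2 : ℝ)) := by gcongr
      _ = ((N:ℝ) ^ (-c) * D * (4 / c ^ 2)) * ((1 + |z.im|) ^ (1 / 2 : ℝ) * (1 + |z.im|) ^ (-2 : ℝ)) := by
        ring
      _ = _ := by rw [hpow]
  have hleftne : ∀ z : ℂ, z.re = -c → z ≠ 0 ∧ z + 1 ≠ 0 := by
    intro z hz
    constructor
    · rintro rfl
      simp at hz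
      linarith
    · intro h
      have := congrArg Complex.re h
      simp at this
      linarith
  have iL : Integrable (fun y : ℝ => g (((-c : ℝ) : ℂ) + y * Complex.I) *
      Kf (((-c : ℝ) : ℂ) + y * Complex.I)) := by
    refine vertical_integrable (H := fun z => g z * Kf z) (fun z hz => ?_) hleft
    obtain ⟨n1, n2⟩ := hleftne z hz
    exact (hgd z hz.ge (by rw [hz]; linarith)).continuousAt.mul (Kf_cont n1 n2)
  have iR : Integrable (fun y : ℝ => g (((1 : ℝ) : ℂ) + y * Complex.I) *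
      Kf (((1 : ℝ) : ℂ) + y * Complex.I)) := by
    refine vertical_integrable (H := fun z => g z * Kf z) (B := (N * D) * 4) (fun z hz => ?_)
      (fun z hz => ?_)
    · obtain ⟨n1, n2, -⟩ := Kf_one hz
      exact (hgd z (by rw [hz]; linarith) hz.le).continuousAt.mul (Kf_cont n1 n2)
    · obtain ⟨-, -, n3⟩ := Kf_one hz
      have e1 := hgb' z (by rw [hz]; linarith) hz.le
      rw [norm_mul]
      calc ‖g z‖ * ‖Kf z‖ ≤ ((N * D) * (1 + |z.im|) ^ (1 / 2 : ℝ)) *
            (4 * (1 + |z.im|) ^ (-2 : ℝ)) := by gcongr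
        _ = ((N * D) * 4) * ((1 + |z.im|) ^ (1 / 2 : ℝ) * (1 + |z.im|) ^ (-2 : ℝ)) := by ring
        _ = _ := by rw [hpow]
  obtain ⟨iK, vK⟩ := K_left hc0 hc1
  have iK' : Integrable (fun y : ℝ => Kf (((-c : ℝ) : ℂ) + y * Complex.I)) := iK
  have vK' : ∫ y : ℝ, Kf (((-c : ℝ) : ℂ) + y * Complex.I) = -(2 * Real.pi) := vK
  have hL : ∫ y : ℝ, (g (((-c : ℝ) : ℂ) + y * Complex.I) - g 0) *
      (1 / ((((-c : ℝ) : ℂ) + y * Complex.I) * ((((-c : ℝ) : ℂ) + y * Complex.I) + 1))) =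
      (∫ y : ℝ, g (((-c : ℝ) : ℂ) + y * Complex.I) * Kf (((-c : ℝ) : ℂ) + y * Complex.I)) +
        fz s * (2 * Real.pi) := by
    have e1 : ∀ y : ℝ, (g (((-c : ℝ) : ℂ) + y * Complex.I) - g 0) *
      (1 / ((((-c : ℝ) : ℂ) + y * Complex.I) * ((((-c : ℝ) : ℂ) + y * Complex.I) + 1))) =
      g (((-c : ℝ) : ℂ) + y * Complex.I) * Kf (((-c : ℝ) : ℂ) + y * Complex.I) -
      g 0 * Kf (((-c : ℝ) : ℂ) + y * Complex.I) := by
      intro y
      unfold Kf
      ring
    simp_rw [e1]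
    rw [integral_sub iL (iK'.const_mul _), integral_const_mul, vK', hg0]
    ring
  have hR : ∫ y : ℝ, (g (((1 : ℝ) : ℂ) + y * Complex.I) - g 0) *
      (1 / ((((1 : ℝ) : ℂ) + y * Complex.I) * ((((1 : ℝ) : ℂ) + y * Complex.I) + 1))) =
      ∫ y : ℝ, g (((1 : ℝ) : ℂ) + y * Complex.I) * Kf (((1 : ℝ) : ℂ) + y * Complex.I) := by
    have e1 : ∀ y : ℝ, (g (((1 : ℝ) : ℂ) + y * Complex.I) - g 0) *
      (1 / ((((1 : ℝ) : ℂ) + y * Complex.I) * ((((1 : ℝ) : ℂ) + y * Complex.I) + 1))) =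
      g (((1 : ℝ) : ℂ) + y * Complex.I) * Kf (((1 : ℝ) : ℂ) + y * Complex.I) -
      g 0 * Kf (((1 : ℝ) : ℂ) + y * Complex.I) := by
      intro y
      unfold Kf
      ring
    simp_rw [e1]
    rw [integral_sub iR (Kf_int_one.const_mul _), integral_const_mul, Kf_zero, mul_zero, sub_zero]
  rw [hL, hR] at hsh
  have hP := poly_eq (s := s) (by rw [hsre]; linarith) hN
  have hP2 : ∫ y : ℝ, Kf (((1:ℝ) : ℂ) + y * Complex.I) *
        (Complex.exp ((((1:ℝ) : ℂ) + y * Complex.I) * (Real.log N : ℝ)) *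
        fz (s + (((1:ℝ) : ℂ) + y * Complex.I))) =
      ∫ y : ℝ, g (((1 : ℝ) : ℂ) + y * Complex.I) * Kf (((1 : ℝ) : ℂ) + y * Complex.I) := by
    refine integral_congr_ae (Eventually.of_forall fun y => ?_)
    simp only [hg]
    ring
  have hs1 : s ≠ 1 := by
    intro h
    have := congrArg Complex.re h
    rw [hsre, Complex.one_re] at this
    linarith
  have hpi : ((2 * Real.pi : ℝ) : ℂ) ≠ 0 := by
    exact_mod_cast (by positivity : (2 * Real.pi : ℝ) ≠ 0)
  have hfin : (∑ n ∈ Finset.Icc 1 N, ((ArithmeticFunction.moebius n : ℤ) : ℂ) * (1 - (n : ℂ) / (N : ℂ)) *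
      (n : ℂ) ^ (-s)) - (riemannZeta s)⁻¹ = (((2 * Real.pi)⁻¹ : ℝ) : ℂ) *
      ∫ y : ℝ, g (((-c : ℝ) : ℂ) + y * Complex.I) * Kf (((-c : ℝ) : ℂ) + y * Complex.I) := by
    rw [hP, hP2, ← hsh, ← fz_eq hs1]
    have h1 : (((2 * Real.pi)⁻¹ : ℝ) : ℂ) * (fz s * (2 * Real.pi)) = fz s := by
      rw [Complex.ofReal_inv]
      have h2 : ((2 * Real.pi : ℝ) : ℂ) = 2 * (Real.pi : ℂ) := by push_cast; rfl
      rw [h2] at hpi ⊢
      field_simp
    rw [mul_add, h1]
    ring
  rw [hfin, norm_mul, Complex.norm_real, Real.norm_eq_abs, abs_of_pos (by positivity)]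
  have hE : ‖∫ y : ℝ, g (((-c : ℝ) : ℂ) + y * Complex.I) * Kf (((-c : ℝ) : ℂ) + y * Complex.I)‖ ≤
      ((N:ℝ) ^ (-c) * D * (4 / c ^ 2)) * I0 := by
    rw [hI0, ← integral_const_mul]
    refine norm_integral_le_of_norm_le (integrable_decay.const_mul _) (Eventually.of_forall fun y => ?_)
    have := hleft (((-c : ℝ) : ℂ) + y * Complex.I) (by simp)
    simpa using this
  have hx1 : (N:ℝ) ^ (-c) ≤ (N:ℝ) ^ (θ - σ + ε) := by
    refine Real.rpow_le_rpow_of_exponent_le hN1 ?_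
    rw [hc]
    linarith
  have hx2 : (1 + |t|) ^ e ≤ (1 + |t|) ^ ε :=
    Real.rpow_le_rpow_of_exponent_le (by linarith [abs_nonneg t]) (by linarith)
  calc (2 * Real.pi)⁻¹ * ‖∫ y : ℝ, g (((-c : ℝ) : ℂ) + y * Complex.I) *
        Kf (((-c : ℝ) : ℂ) + y * Complex.I)‖
      ≤ (2 * Real.pi)⁻¹ * (((N:ℝ) ^ (-c) * D * (4 / c ^ 2)) * I0) := by gcongr
    _ = ((2 * Real.pi)⁻¹ * (Cf * (4 / c ^ 2) * I0)) * (N:ℝ) ^ (-c) * (1 + |t|) ^ e := by
      rw [hD]; ring
    _ ≤ ((2 * Real.pi)⁻¹ * (Cf * (4 / c ^ 2) * I0) + 1) * (N : ℝ) ^ (θ - σ + ε) * (1 + |t|) ^ ε := by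
      gcongr
      linarith

end

end Pool.Agent.Q31.NB
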